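import Pool.Agent.Run7.h893.NP.Pts

/-!
# Few tuples of fibres with unexpected relations over other fields and rings
-/

set_option autoImplicit false

open Matrix
open Pool.Agent.Results.MP_57341d_ag.HypergeometricOrthogonal (Eqn)
open Pool.Agent.Results.MP_1eadae_ag.HypergeometricNormalFunctions (unip point Yfull Exceptional)

namespace Run7.h893.NP

open Pool.Agent.Y119.HY (E Hf Hc Yf)

/-- the matrix of the periods is in the torsor -/
theorem Y_mem (e : Eqn) (he : e.Admissible) {t : ℕ} (ht : 2 ≤ t) : e.Y t ∈ e.T (1 / (t : ℂ)) := by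
  have hF := Pool.Agent.Results.MP_57341d_ag.HypergeometricOrthogonal.fam e he
  have h2 : (2 : ℝ) ≤ t := by exact_mod_cast ht
  have h1 := hF.form (1 / (t : ℝ)) (by positivity) (by rw [div_lt_one (by linarith)]; linarith)
  have h3 : Yf (Pool.Agent.Y119.HY.cm (Pool.Agent.Y119.HY.Am e.order)) (Hc e.order e.poly) ((1 / (t : ℝ) : ℝ) : ℂ) = e.Y t := by
    rw [Pool.Agent.Results.MP_57341d_ag.HypergeometricOrthogonal.Y_eq]
    unfold Yf Pool.Agent.Y119.HZ.Yt
    rw [← Complex.ofReal_log (by positivity), one_div, Real.log_inv, Complex.ofReal_neg]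
  rw [h3] at h1
  have hcast : (((1 / (t : ℝ) : ℝ)) : ℂ) = 1 / (t : ℂ) := by push_cast; rfl
  rw [hcast] at h1
  exact h1

variable {k : ℕ} {e : Fin k → Eqn} {q : Fin k → ℕ}

/-- the periods of the fibres: the numbers `log t_i` and the entries of the matrices `Ỹ_i(t_i) Ω_i` -/
noncomputable def val (Ω : ∀ i, Matrix (Fin (e i).order ⊕ Fin (q i)) (Fin (e i).order ⊕ Fin (q i)) ℂ) (t : Fin k → ℕ) :
    Cx e q → ℂ := point (fun i => ((Real.log (t i) : ℝ) : ℂ)) fun i => Yfull (e i) (q i) (t i) * Ω i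

/-- relations of degree `≤ δ` with coefficients in `V ζ_1 + … + V ζ_g` between the coordinates of `v` are trivial -/
def Indep {g : ℕ} (δ : ℕ) (V : Submodule ℚ ℂ) (ζ : Fin g → ℂ) (v : Cx e q → ℂ) : Prop :=
  ∀ R : Fin g → MvPolynomial (Cx e q) ℂ, (∀ a, (R a).totalDegree ≤ δ) → (∀ a m, (R a).coeff m ∈ V) →
    ∑ a, ζ a * MvPolynomial.aeval v (R a) = 0 → ∀ a, MvPolynomial.aeval v (R a) = 0

/-- the span of the products -/
noncomputable def VZ {g : ℕ} (V : Submodule ℚ ℂ) (ζ : Fin g → ℂ) : Submodule ℚ ℂ :=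
  LinearMap.range (∑ a, (LinearMap.mulLeft ℚ (ζ a)) ∘ₗ V.subtype ∘ₗ LinearMap.proj (R := ℚ) (φ := fun _ : Fin g => V) a)

lemma mem_VZ {g : ℕ} (V : Submodule ℚ ℂ) (ζ : Fin g → ℂ) {c : Fin g → ℂ} (hc : ∀ a, c a ∈ V) : ∑ a, ζ a * c a ∈ VZ V ζ := by
  refine ⟨fun a => ⟨c a, hc a⟩, ?_⟩
  rw [LinearMap.sum_apply]
  rfl

lemma VZ_fin {g : ℕ} (V : Submodule ℚ ℂ) [Module.Finite ℚ V] (ζ : Fin g → ℂ) :
    Module.Finite ℚ (VZ V ζ) ∧ Module.finrank ℚ (VZ V ζ) ≤ g * Module.finrank ℚ V := by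
  constructor
  · unfold VZ
    infer_instance
  · refine (LinearMap.finrank_range_le _).trans ?_
    rw [Module.finrank_pi_fintype]
    simp

theorem few_indep (k : ℕ) (e : Fin k → Eqn) (he : ∀ i, (e i).Admissible) (q : Fin k → ℕ) (δ D g : ℕ) :
    ∃ γ C : ℝ, 0 < γ ∧ ∀ V : Submodule ℚ ℂ, Module.Finite ℚ V → Module.finrank ℚ V ≤ D →
      ∀ (M : IntermediateField ℚ ℂ) [IsAlgClosed M], (∀ v ∈ V, v ∈ M) → ∀ ζ : Fin g → ℂ, LinearIndependent M ζ →
      ∀ (Ω : ∀ i, Matrix (Fin (e i).order) (Fin (e i).order) ℂ) (W : ∀ i, Matrix (Fin (e i).order) (Fin (q i)) ℂ)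
        (A : ∀ i, Matrix (Fin (q i)) (Fin (q i)) ℂ), (∀ i, (Ω i).det ≠ 0) → (∀ i, (A i).det ≠ 0) →
        (∀ i a b, ((Ω i).transpose * (e i).J * Ω i) a b ∈ M) → (∀ i a b, A i a b ∈ M) →
      ∀ (x : Fin k → ℕ) (N : ℕ), (∀ i, 1 ≤ x i) → 1 ≤ N →
      (({t : Fin k → ℕ | (∀ i, x i < t i ∧ t i ≤ x i + N) ∧
        ¬ Indep δ V ζ (val (fun i => Matrix.fromBlocks (Ω i) (W i) 0 (A i)) t)}.ncard : ℕ) : ℝ) ≤
        C * (N : ℝ) ^ (k - 1) * ∑ i, (1 + N / ((x i : ℝ) + N) ^ γ) := by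
  classical
  obtain ⟨γ, C, hγ, hmain⟩ :=
    Pool.Agent.Results.MP_1eadae_ag.HypergeometricNormalFunctions.result k e he q δ (g * D)
  refine ⟨γ, C, hγ, ?_⟩
  intro V hVf hV M _ hVM ζ hζ Ω W A hΩ hA hQ hAM x N hx hN
  obtain ⟨hf, hr⟩ := VZ_fin V ζ
  have h1 := hmain (VZ V ζ) hf (hr.trans (Nat.mul_le_mul_left _ hV)) (fun i => Matrix.fromBlocks (Ω i) (W i) 0 (A i)) x N hx hN
  refine le_trans (Nat.cast_le.2 (Set.ncard_le_ncard ?_ ?_)) h1
  · rintro t ⟨hbox, hI⟩
    refine ⟨hbox, ?_⟩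
    by_contra hE
    apply hI
    intro R hRd hRV hR0 a
    have ht2 : ∀ i, 2 ≤ t i := fun i => by
      have := (hbox i).1
      have := hx i
      omega
    have hev : ∀ p : Cx e q → ℂ, MvPolynomial.aeval p (∑ a, MvPolynomial.C (ζ a) * R a) =
        ∑ a, ζ a * MvPolynomial.aeval p (R a) := by
      intro p
      rw [map_sum]
      refine Finset.sum_congr rfl fun a _ => ?_
      rw [map_mul, MvPolynomial.aeval_C]
      rfl
    have hT : ∀ (l : Fin k → ℂ) (X : ∀ i, Matrix (Fin (e i).order) (Fin (e i).order) ℂ)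
        (y : ∀ i, Matrix (Fin (e i).order) (Fin (q i)) ℂ), (∀ i, X i ∈ (e i).T (1 / (t i : ℂ))) →
        ∑ a, ζ a * MvPolynomial.aeval (point l fun i => Matrix.fromBlocks (X i) (y i) 0 (unip (q i) (l i)) *
          Matrix.fromBlocks (Ω i) (W i) 0 (A i)) (R a) = 0 := by
      intro l X y hX
      by_contra hne
      apply hE
      refine ⟨∑ a, MvPolynomial.C (ζ a) * R a, ?_, fun m => ?_, ?_, l, X, y, hX, ?_⟩
      · refine MvPolynomial.totalDegree_finsetSum_le fun a _ => ?_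
        refine (MvPolynomial.totalDegree_mul _ _).trans ?_
        rw [MvPolynomial.totalDegree_C, zero_add]
        exact hRd a
      · rw [MvPolynomial.coeff_sum]
        simp only [MvPolynomial.coeff_C_mul]
        exact mem_VZ V ζ fun a => hRV a m
      · rw [hev]
        exact hR0
      · rw [hev]
        exact hne
    exact indep_main hζ (fun a m => hVM _ (hRV a m)) hΩ hA hQ hAM hT a (fun i => ((Real.log (t i) : ℝ) : ℂ))
      (fun i => (e i).Y (t i)) (fun i => Pool.Agent.Results.MP_1eadae_ag.HypergeometricNormalFunctions.U (e i) (q i) (t i))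
      fun i => Y_mem (e i) (he i) (ht2 i)
  · refine (Set.finite_Iic (fun i : Fin k => x i + N)).subset ?_
    intro t ht i
    exact (ht.1 i).2

/-- the field of the algebraic numbers is algebraically closed -/
theorem algcl : IsAlgClosed (algebraicClosure ℚ ℂ) := (algebraicClosure.isAlgClosure ℚ ℂ).isAlgClosed

/-- the torsors have algebraic points -/
theorem exists_alg (e : Eqn) (he : e.Admissible) {t : ℕ} (ht : 2 ≤ t) : ∃ X ∈ e.T (1 / (t : ℂ)), ∀ a b, IsAlgebraic ℚ (X a b) := by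
  classical
  by_contra hcon
  push Not at hcon
  set M := algebraicClosure ℚ ℂ with hM
  have hcl : IsAlgClosed M := algcl
  set e' : Fin 1 → Eqn := fun _ => e with he'
  have hQ : ∀ (a b : Fin e.order), e.J a b ∈ M := by
    intro a b
    have h1 := B_mem M e 0 a b
    have h2 : e.B (1 / ((0 : ℕ) : ℂ)) a b = e.J a b := by
      unfold Eqn.B
      rw [Matrix.of_apply]
      split
      · simp
      · rfl
    rwa [h2] at h1
  set B' : ∀ i : Fin 1, Matrix (Fin (e' i).order) (Fin (e' i).order) M := fun i => Matrix.of fun a b => ⟨_, B_mem M e t a b⟩ with hB'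
  set Q' : ∀ i : Fin 1, Matrix (Fin (e' i).order) (Fin (e' i).order) M := fun i => Matrix.of fun a b => ⟨_, hQ a b⟩ with hQ'
  have h1 := transfer (Set.range (eqs (e := e') (q := fun _ => 0) B' Q')) 1 (fun m hm => ?_)
    (pnt (fun _ => 0) (fun _ => e.Y t) fun _ => 0) (by
      rintro _ ⟨v, rfl⟩
      rw [aeval_eqs, sub_eq_zero]
      have h7 : (e.Y t).transpose * e.B (1 / (t : ℂ)) * e.Y t = e.J := Y_mem e he ht
      have h8 : (B' v.1).map (algebraMap M ℂ) = e.B (1 / (t : ℂ)) := by ext a b; rfl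
      rw [h8, h7]
      rfl)
  · rw [map_one] at h1
    exact one_ne_zero h1
  · exfalso
    obtain ⟨a, b, hab⟩ := hcon (Matrix.of fun a b => algebraMap M ℂ (m ⟨0, some (.inl (a, b))⟩)) (by
      show _ = _
      ext a b
      have h2 := hm _ ⟨⟨0, a, b⟩, rfl⟩
      have h3 := MvPolynomial.aeval_algebraMap_apply ℂ m (eqs (e := e') (q := fun _ => 0) B' Q' ⟨0, a, b⟩)
      have h4 : (⇑(algebraMap M ℂ) ∘ m) = _ := eq_pnt (e := e') (q := fun _ => 0) _
      rw [h2, map_zero, h4, aeval_eqs, sub_eq_zero] at h3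
      have h8 : (B' 0).map (algebraMap M ℂ) = e.B (1 / (t : ℂ)) := by ext a b; rfl
      rw [h8] at h3
      exact h3)
    exact hab ((mem_algebraicClosure_iff (F := ℚ) (E := ℂ)).1 (m ⟨0, some (.inl (a, b))⟩).2)

end Run7.h893.NP
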