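import Pool.Agent.Results.MP_1eadae_ag.HypergeometricNormalFunctions

/-!
# Points of the torsors over algebraically closed fields, relations with coefficients which are independent over them
-/

set_option autoImplicit false

open Matrix
open Pool.Agent.Results.MP_57341d_ag.HypergeometricOrthogonal (Eqn)
open Pool.Agent.Results.MP_1eadae_ag.HypergeometricNormalFunctions (unip point)

namespace Run7.h893.NP

/-- **Zeros over an algebraically closed subfield suffice.** -/
theorem transfer {M : IntermediateField ℚ ℂ} [IsAlgClosed M] {τ : Type} [Finite τ] (S : Set (MvPolynomial τ M))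
    (F : MvPolynomial τ M) (h : ∀ x : τ → M, (∀ p ∈ S, MvPolynomial.aeval x p = 0) → MvPolynomial.aeval x F = 0)
    (z : τ → ℂ) (hz : ∀ p ∈ S, MvPolynomial.aeval z p = 0) : MvPolynomial.aeval z F = 0 := by
  have h1 : F ∈ MvPolynomial.vanishingIdeal M (MvPolynomial.zeroLocus M (Ideal.span S)) := by
    rw [MvPolynomial.mem_vanishingIdeal_iff]
    intro x hx
    exact h x fun p hp => hx p (Ideal.subset_span hp)
  rw [MvPolynomial.vanishingIdeal_zeroLocus_eq_radical] at h1
  obtain ⟨n, hn⟩ := h1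
  have h2 : Ideal.span S ≤ RingHom.ker (MvPolynomial.aeval (R := M) z).toRingHom := by
    rw [Ideal.span_le]
    intro p hp
    exact hz p hp
  have h3 : MvPolynomial.aeval z (F ^ n) = 0 := h2 hn
  rw [map_pow] at h3
  have hn0 : n ≠ 0 := by
    rintro rfl
    rw [pow_zero] at h3
    exact one_ne_zero h3
  exact (pow_eq_zero_iff hn0).1 h3

/-- a polynomial with coefficients in a subfield -/
theorem exists_map {M : IntermediateField ℚ ℂ} {τ : Type} (R : MvPolynomial τ ℂ) (h : ∀ m, R.coeff m ∈ M) :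
    ∃ R' : MvPolynomial τ M, MvPolynomial.map (algebraMap M ℂ) R' = R := by
  classical
  refine ⟨∑ m ∈ R.support, MvPolynomial.monomial m ⟨R.coeff m, h m⟩, ?_⟩
  rw [map_sum]
  conv_rhs => rw [R.as_sum]
  refine Finset.sum_congr rfl fun m _ => ?_
  rw [MvPolynomial.map_monomial]
  rfl

variable {k : ℕ} {e : Fin k → Eqn} {q : Fin k → ℕ}

/-- the coordinates -/
abbrev Cx (e : Fin k → Eqn) (q : Fin k → ℕ) : Type :=
  Σ i : Fin k, Option ((Fin (e i).order ⊕ Fin (q i)) × (Fin (e i).order ⊕ Fin (q i)))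

/-- the parameters -/
abbrev Tx (e : Fin k → Eqn) (q : Fin k → ℕ) : Type :=
  Σ i : Fin k, Option ((Fin (e i).order × Fin (e i).order) ⊕ (Fin (e i).order × Fin (q i)))

/-- the point with the given parameters -/
def pnt {K : Type*} (l : Fin k → K) (P : ∀ i, Matrix (Fin (e i).order) (Fin (e i).order) K)
    (U : ∀ i, Matrix (Fin (e i).order) (Fin (q i)) K) : Tx e q → K
  | ⟨i, none⟩ => l i
  | ⟨i, some (.inl p)⟩ => P i p.1 p.2
  | ⟨i, some (.inr p)⟩ => U i p.1 p.2

lemma eq_pnt {K : Type*} (m : Tx e q → K) : m = pnt (fun i => m ⟨i, none⟩) (fun i => Matrix.of fun a b => m ⟨i, some (.inl (a, b))⟩)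
    (fun i => Matrix.of fun a b => m ⟨i, some (.inr (a, b))⟩) := by
  funext v
  obtain ⟨i, _ | p | p⟩ := v
  · rfl
  · rfl
  · rfl

variable {M : IntermediateField ℚ ℂ}

/-- the substitution -/
noncomputable def sb (A : ∀ i, Matrix (Fin (q i)) (Fin (q i)) M) : Cx e q → MvPolynomial (Tx e q) M
  | ⟨i, none⟩ => MvPolynomial.X ⟨i, none⟩
  | ⟨i, some (.inl a, .inl b)⟩ => MvPolynomial.X ⟨i, some (.inl (a, b))⟩
  | ⟨i, some (.inl a, .inr b)⟩ => MvPolynomial.X ⟨i, some (.inr (a, b))⟩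
  | ⟨_, some (.inr _, .inl _)⟩ => 0
  | ⟨i, some (.inr a, .inr b)⟩ => ∑ c : Fin (q i), (if a ≤ c then (-MvPolynomial.X ⟨i, none⟩) ^ ((c : ℕ) - a) *
      MvPolynomial.C ((((c : ℕ) - a).factorial : M)⁻¹) else 0) * MvPolynomial.C (A i c b)

/-- the points of the torsor in coordinates -/
noncomputable def bp (l : Fin k → ℂ) (P : ∀ i, Matrix (Fin (e i).order) (Fin (e i).order) ℂ)
    (U : ∀ i, Matrix (Fin (e i).order) (Fin (q i)) ℂ) (A : ∀ i, Matrix (Fin (q i)) (Fin (q i)) ℂ) :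
    Cx e q → ℂ := point l fun i => Matrix.fromBlocks (P i) (U i) 0 (unip (q i) (l i) * A i)

lemma aeval_sb (A : ∀ i, Matrix (Fin (q i)) (Fin (q i)) M) (l : Fin k → ℂ)
    (P : ∀ i, Matrix (Fin (e i).order) (Fin (e i).order) ℂ) (U : ∀ i, Matrix (Fin (e i).order) (Fin (q i)) ℂ) (v : Cx e q) :
    MvPolynomial.aeval (pnt l P U) (sb A v) = bp l P U (fun i => (A i).map (algebraMap M ℂ)) v := by
  obtain ⟨i, _ | ⟨a | a, b | b⟩⟩ := v
  · show MvPolynomial.aeval _ (MvPolynomial.X _) = _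
    rw [MvPolynomial.aeval_X]
    rfl
  · show MvPolynomial.aeval _ (MvPolynomial.X _) = _
    rw [MvPolynomial.aeval_X]
    rfl
  · show MvPolynomial.aeval _ (MvPolynomial.X _) = _
    rw [MvPolynomial.aeval_X]
    rfl
  · show MvPolynomial.aeval _ 0 = _
    rw [map_zero]
    rfl
  · show MvPolynomial.aeval _ (∑ c : Fin (q i), (if a ≤ c then (-MvPolynomial.X (⟨i, none⟩ : Tx e q)) ^ ((c : ℕ) - a) *
      MvPolynomial.C ((((c : ℕ) - a).factorial : M)⁻¹) else 0) * MvPolynomial.C (A i c b)) =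
      (unip (q i) (l i) * (A i).map (algebraMap M ℂ)) a b
    rw [map_sum, Matrix.mul_apply]
    refine Finset.sum_congr rfl fun c _ => ?_
    rw [map_mul, MvPolynomial.aeval_C]
    congr 1
    unfold unip
    rw [Matrix.of_apply]
    split_ifs with h
    · rw [map_mul, map_pow, map_neg, MvPolynomial.aeval_X, MvPolynomial.aeval_C, map_inv₀, map_natCast]
      rfl
    · rw [map_zero]

lemma B_mem (M : IntermediateField ℚ ℂ) (e : Eqn) (t : ℕ) (a b : Fin e.order) : e.B (1 / (t : ℂ)) a b ∈ M := by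
  have hr : ∀ r : ℚ, ((r : ℚ) : ℂ) ∈ M := fun r => M.algebraMap_mem r
  have ht : (1 / (t : ℂ)) ∈ M := by
    have := hr (1 / (t : ℚ))
    push_cast at this
    exact this
  have hJ : e.J a b ∈ M := by
    unfold Eqn.J
    rw [Matrix.of_apply]
    split
    · split_ifs
      · exact pow_mem (neg_mem (one_mem _)) _
      · exact zero_mem _
    · split_ifs
      · exact hr _
      · exact zero_mem _
  unfold Eqn.B
  rw [Matrix.of_apply]
  split
  · exact sub_mem hJ (mul_mem ht (hr _))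
  · exact hJ

/-- the equations of the torsor -/
noncomputable def eqs (Bm Qm : ∀ i, Matrix (Fin (e i).order) (Fin (e i).order) M) :
    (Σ i : Fin k, Fin (e i).order × Fin (e i).order) → MvPolynomial (Tx e q) M := fun v =>
  ∑ c, ∑ d, MvPolynomial.X ⟨v.1, some (.inl (c, v.2.1))⟩ * MvPolynomial.C (Bm v.1 c d) *
    MvPolynomial.X ⟨v.1, some (.inl (d, v.2.2))⟩ - MvPolynomial.C (Qm v.1 v.2.1 v.2.2)

lemma aeval_eqs (Bm Qm : ∀ i, Matrix (Fin (e i).order) (Fin (e i).order) M) (l : Fin k → ℂ)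
    (P : ∀ i, Matrix (Fin (e i).order) (Fin (e i).order) ℂ) (U : ∀ i, Matrix (Fin (e i).order) (Fin (q i)) ℂ)
    (v : Σ i : Fin k, Fin (e i).order × Fin (e i).order) :
    MvPolynomial.aeval (pnt l P U) (eqs (q := q) Bm Qm v) =
      ((P v.1).transpose * (Bm v.1).map (algebraMap M ℂ) * P v.1) v.2.1 v.2.2 - algebraMap M ℂ (Qm v.1 v.2.1 v.2.2) := by
  unfold eqs
  rw [map_sub, MvPolynomial.aeval_C, map_sum]
  congr 1
  rw [Matrix.mul_assoc, Matrix.mul_apply]
  refine Finset.sum_congr rfl fun c _ => ?_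
  rw [Matrix.mul_apply, Finset.mul_sum, map_sum]
  refine Finset.sum_congr rfl fun d _ => ?_
  rw [map_mul, map_mul, MvPolynomial.aeval_X, MvPolynomial.aeval_C, MvPolynomial.aeval_X, Matrix.transpose_apply, mul_assoc]
  rfl

/-- **Relations whose coefficients are independent over an algebraically closed field.** -/
theorem indep_main [IsAlgClosed M] {g : ℕ} {ζ : Fin g → ℂ} (hζ : LinearIndependent M ζ)
    {R : Fin g → MvPolynomial (Cx e q) ℂ} (hR : ∀ a m, (R a).coeff m ∈ M)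
    {Ω : ∀ i, Matrix (Fin (e i).order) (Fin (e i).order) ℂ} {W : ∀ i, Matrix (Fin (e i).order) (Fin (q i)) ℂ}
    {A : ∀ i, Matrix (Fin (q i)) (Fin (q i)) ℂ} (hΩ : ∀ i, (Ω i).det ≠ 0) (hA : ∀ i, (A i).det ≠ 0)
    (hQ : ∀ i a b, ((Ω i).transpose * (e i).J * Ω i) a b ∈ M) (hAM : ∀ i a b, A i a b ∈ M) {t : Fin k → ℕ}
    (hT : ∀ (l : Fin k → ℂ) (X : ∀ i, Matrix (Fin (e i).order) (Fin (e i).order) ℂ)
      (y : ∀ i, Matrix (Fin (e i).order) (Fin (q i)) ℂ), (∀ i, X i ∈ (e i).T (1 / (t i : ℂ))) →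
      ∑ a, ζ a * MvPolynomial.aeval (point l fun i => Matrix.fromBlocks (X i) (y i) 0 (unip (q i) (l i)) *
        Matrix.fromBlocks (Ω i) (W i) 0 (A i)) (R a) = 0) (a : Fin g) (l : Fin k → ℂ)
    (X : ∀ i, Matrix (Fin (e i).order) (Fin (e i).order) ℂ) (y : ∀ i, Matrix (Fin (e i).order) (Fin (q i)) ℂ)
    (hX : ∀ i, X i ∈ (e i).T (1 / (t i : ℂ))) :
    MvPolynomial.aeval (point l fun i => Matrix.fromBlocks (X i) (y i) 0 (unip (q i) (l i)) *
        Matrix.fromBlocks (Ω i) (W i) 0 (A i)) (R a) = 0 := by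
  classical
  choose R' hR' using fun a => exists_map (M := M) (R a) (hR a)
  set A' : ∀ i, Matrix (Fin (q i)) (Fin (q i)) M := fun i => Matrix.of fun a b => ⟨A i a b, hAM i a b⟩ with hA'
  set B' : ∀ i, Matrix (Fin (e i).order) (Fin (e i).order) M := fun i => Matrix.of fun a b => ⟨_, B_mem M (e i) (t i) a b⟩ with hB'
  set Q' : ∀ i, Matrix (Fin (e i).order) (Fin (e i).order) M := fun i => Matrix.of fun a b => ⟨_, hQ i a b⟩ with hQ'
  have eA : ∀ i, (A' i).map (algebraMap M ℂ) = A i := fun i => by ext a b; rfl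
  have eB : ∀ i, (B' i).map (algebraMap M ℂ) = (e i).B (1 / (t i : ℂ)) := fun i => by ext a b; rfl
  have eQ : ∀ i a b, algebraMap M ℂ (Q' i a b) = ((Ω i).transpose * (e i).J * Ω i) a b := fun i a b => rfl
  have hprod : ∀ (l : Fin k → ℂ) (X : ∀ i, Matrix (Fin (e i).order) (Fin (e i).order) ℂ)
      (y : ∀ i, Matrix (Fin (e i).order) (Fin (q i)) ℂ),
      (fun i => Matrix.fromBlocks (X i) (y i) 0 (unip (q i) (l i)) * Matrix.fromBlocks (Ω i) (W i) 0 (A i)) =
      fun i => Matrix.fromBlocks (X i * Ω i) (X i * W i + y i * A i) 0 (unip (q i) (l i) * A i) := by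
    intro l X y
    funext i
    rw [Matrix.fromBlocks_multiply]
    simp
  set F : Fin g → MvPolynomial (Tx e q) M := fun a => MvPolynomial.aeval (sb A') (R' a) with hF
  have hFv : ∀ a (l : Fin k → ℂ) (P : ∀ i, Matrix (Fin (e i).order) (Fin (e i).order) ℂ)
      (U : ∀ i, Matrix (Fin (e i).order) (Fin (q i)) ℂ),
      MvPolynomial.aeval (pnt l P U) (F a) = MvPolynomial.aeval (bp l P U A) (R a) := by
    intro a l P U
    have h1 : MvPolynomial.aeval (pnt l P U) (F a) =
        MvPolynomial.aeval (fun v => MvPolynomial.aeval (pnt l P U) (sb A' v)) (R' a) := MvPolynomial.aeval_bind₁ _ _ _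
    rw [h1]
    simp only [aeval_sb, eA]
    rw [← hR' a, MvPolynomial.aeval_map_algebraMap]
  -- the points over `M`
  have hM : ∀ a, ∀ m : Tx e q → M, (∀ p ∈ Set.range (eqs (q := q) B' Q'), MvPolynomial.aeval m p = 0) →
      MvPolynomial.aeval m (F a) = 0 := by
    intro a m hm
    set l : Fin k → ℂ := fun i => algebraMap M ℂ (m ⟨i, none⟩) with hl
    set P : ∀ i, Matrix (Fin (e i).order) (Fin (e i).order) ℂ :=
      fun i => Matrix.of fun a b => algebraMap M ℂ (m ⟨i, some (.inl (a, b))⟩) with hP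
    set U : ∀ i, Matrix (Fin (e i).order) (Fin (q i)) ℂ :=
      fun i => Matrix.of fun a b => algebraMap M ℂ (m ⟨i, some (.inr (a, b))⟩) with hU
    have hz : (fun v => algebraMap M ℂ (m v)) = pnt l P U := eq_pnt _
    have hcoe : ∀ p : MvPolynomial (Tx e q) M, MvPolynomial.aeval (pnt l P U) p = algebraMap M ℂ (MvPolynomial.aeval m p) := by
      intro p
      rw [← hz]
      exact MvPolynomial.aeval_algebraMap_apply ℂ m p
    have hPB : ∀ i, (P i).transpose * (e i).B (1 / (t i : ℂ)) * P i = (Ω i).transpose * (e i).J * Ω i := by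
      intro i
      ext a b
      have h1 := hm _ ⟨⟨i, a, b⟩, rfl⟩
      have h2 := hcoe (eqs (q := q) B' Q' ⟨i, a, b⟩)
      rw [h1, map_zero, aeval_eqs, eB, eQ] at h2
      exact sub_eq_zero.1 h2
    have hX' : ∀ i, P i * (Ω i)⁻¹ ∈ (e i).T (1 / (t i : ℂ)) := by
      intro i
      show (P i * (Ω i)⁻¹).transpose * (e i).B (1 / (t i : ℂ)) * (P i * (Ω i)⁻¹) = (e i).J
      have hu : IsUnit (Ω i).det := Ne.isUnit (hΩ i)
      have hut : IsUnit (Ω i).transpose.det := by rw [Matrix.det_transpose]; exact hu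
      calc (P i * (Ω i)⁻¹).transpose * (e i).B (1 / (t i : ℂ)) * (P i * (Ω i)⁻¹) =
          ((Ω i)⁻¹).transpose * ((P i).transpose * (e i).B (1 / (t i : ℂ)) * P i) * (Ω i)⁻¹ := by
            rw [Matrix.transpose_mul]
            simp only [Matrix.mul_assoc]
        _ = ((Ω i).transpose)⁻¹ * (Ω i).transpose * (e i).J * (Ω i * (Ω i)⁻¹) := by
            rw [hPB, Matrix.transpose_nonsing_inv]
            simp only [Matrix.mul_assoc]
        _ = _ := by rw [Matrix.mul_nonsing_inv _ hu, Matrix.nonsing_inv_mul _ hut, Matrix.one_mul, Matrix.mul_one]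
    have h3 := hT l (fun i => P i * (Ω i)⁻¹) (fun i => (U i - P i * (Ω i)⁻¹ * W i) * (A i)⁻¹) hX'
    rw [hprod] at h3
    have h4 : (fun i => Matrix.fromBlocks (P i * (Ω i)⁻¹ * Ω i) (P i * (Ω i)⁻¹ * W i + (U i - P i * (Ω i)⁻¹ * W i) * (A i)⁻¹ * A i)
        0 (unip (q i) (l i) * A i)) = fun i => Matrix.fromBlocks (P i) (U i) 0 (unip (q i) (l i) * A i) := by
      funext i
      rw [Matrix.mul_assoc (P i), Matrix.nonsing_inv_mul _ (Ne.isUnit (hΩ i)), Matrix.mul_one,
        Matrix.mul_assoc (U i - _), Matrix.nonsing_inv_mul _ (Ne.isUnit (hA i)), Matrix.mul_one, add_sub_cancel]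
    rw [h4] at h3
    have h5 : ∀ a, MvPolynomial.aeval (point l fun i => Matrix.fromBlocks (P i) (U i) 0 (unip (q i) (l i) * A i)) (R a) =
        algebraMap M ℂ (MvPolynomial.aeval m (F a)) := by
      intro a
      rw [← hcoe, hFv]
      rfl
    simp only [h5] at h3
    rw [Fintype.linearIndependent_iff] at hζ
    refine hζ (fun a => MvPolynomial.aeval m (F a)) ?_ a
    rw [← h3]
    refine Finset.sum_congr rfl fun a _ => ?_
    rw [Algebra.smul_def, mul_comm]
  have h6 := transfer (Set.range (eqs (q := q) B' Q')) (F a) (hM a) (pnt l (fun i => X i * Ω i) fun i => X i * W i + y i * A i) (by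
    rintro _ ⟨v, rfl⟩
    rw [aeval_eqs, eB, eQ, sub_eq_zero]
    have h7 := hX v.1
    have h8 : (X v.1).transpose * (e v.1).B (1 / (t v.1 : ℂ)) * X v.1 = (e v.1).J := h7
    have h9 : (X v.1 * Ω v.1).transpose * (e v.1).B (1 / (t v.1 : ℂ)) * (X v.1 * Ω v.1) =
        (Ω v.1).transpose * (e v.1).J * Ω v.1 := by
      calc (X v.1 * Ω v.1).transpose * (e v.1).B (1 / (t v.1 : ℂ)) * (X v.1 * Ω v.1) =
          (Ω v.1).transpose * ((X v.1).transpose * (e v.1).B (1 / (t v.1 : ℂ)) * X v.1) * Ω v.1 := by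
            rw [Matrix.transpose_mul]
            simp only [Matrix.mul_assoc]
        _ = _ := by rw [h8]
    rw [h9])
  rw [hFv] at h6
  rw [hprod]
  exact h6

end Run7.h893.NP
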